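import Pool.Agent.U66.UP.St

set_option autoImplicit false

/-!
# MP_860a31_lc: a Hanf number for Galois stability

For every cardinal `κ` there is a cardinal `H ≥ κ` such that every abstract elementary class with
vocabulary and Löwenheim-Skolem number at most `κ` which is Galois-stable in all cardinals of a
bounded interval `[κ, H]` is Galois-stable in all cardinals `≥ κ`. No tameness is assumed. In
particular a class that is Galois-stable below some categoricity cardinal `lam > H` is Galois-stable
everywhere above `κ`.
-/

namespace Pool.Agent.Results.MP_860a31_lc.StabilityHanf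

open Cardinal FirstOrder
open Pool.Agent.H288R4.LS (AEC)
open Pool.Agent.U66.UP (Stable hanf_stable)

universe u

theorem result (κ : Cardinal.{u}) :
    ∃ H : Cardinal.{u}, κ ≤ H ∧ ∀ (L : FirstOrder.Language.{u, u}) (K : AEC L), K.LSat κ →
      (∀ μ : Cardinal.{u}, κ ≤ μ → μ ≤ H → Stable K μ) →
        ∀ μ : Cardinal.{u}, κ ≤ μ → Stable K μ :=
  hanf_stable κ

end Pool.Agent.Results.MP_860a31_lc.StabilityHanf
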